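import Pool.Agent.H25.DL.Targets

set_option autoImplicit false

open Complex MeasureTheory Set Pool.Agent.H25.DL

namespace Pool.Agent.H92.DL

/-- Fubini for a convolution-type double integral -/
lemma swap_bound (F g : ℝ → ℂ) (a b c e R M : ℝ) (hac : a ≤ c - R) (hR : 0 ≤ R) (hce : c ≤ e)
    (heb : e + R ≤ b) (hF : ContinuousOn F (Icc a b)) (hg : Continuous g)
    (hM : ∀ x y, a ≤ x → x ≤ y → y ≤ b → ‖∫ t in x..y, F t‖ ≤ M) (hgi : ∫ y in (-R)..R, ‖g y‖ ≤ 1)
    (hM0 : 0 ≤ M) :
    ‖∫ u in c..e, ∫ y in (-R)..R, F (u + y) * g y‖ ≤ M := by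
  have hRR : -R ≤ R := by linarith
  have hsw : ∫ u in c..e, ∫ y in (-R)..R, F (u + y) * g y =
      ∫ y in (-R)..R, ∫ u in c..e, F (u + y) * g y := by
    apply intervalIntegral_intervalIntegral_swap
    rw [uIoc_of_le hce, uIoc_of_le hRR]
    refine IntegrableOn.mono_set ?_ (prod_mono Ioc_subset_Icc_self Ioc_subset_Icc_self)
    apply ContinuousOn.integrableOn_compact (isCompact_Icc.prod isCompact_Icc)
    refine ContinuousOn.mul ?_ (hg.comp continuous_snd).continuousOn
    refine hF.comp (continuous_fst.add continuous_snd).continuousOn ?_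
    rintro ⟨u, y⟩ ⟨hu, hy⟩
    simp only at hu hy
    exact ⟨by linarith [hu.1, hy.1], by linarith [hu.2, hy.2]⟩
  rw [hsw]
  have h1 : ∀ y : ℝ, ∫ u in c..e, F (u + y) * g y = (∫ t in (c + y)..(e + y), F t) * g y := by
    intro y
    rw [intervalIntegral.integral_mul_const, intervalIntegral.integral_comp_add_right]
  have h2 : ‖∫ y in (-R)..R, ∫ u in c..e, F (u + y) * g y‖ ≤ ∫ y in (-R)..R, M * ‖g y‖ := by
    refine intervalIntegral.norm_integral_le_of_norm_le hRR ?_ ?_
    · refine Filter.Eventually.of_forall fun y hy => ?_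
      rw [h1, norm_mul]
      refine mul_le_mul_of_nonneg_right ?_ (norm_nonneg _)
      exact hM _ _ (by linarith [hy.1]) (by linarith) (by linarith [hy.2])
    · exact (continuous_const.mul hg.norm).intervalIntegrable _ _
  refine h2.trans ?_
  rw [intervalIntegral.integral_const_mul]
  calc M * ∫ y in (-R)..R, ‖g y‖ ≤ M * 1 := mul_le_mul_of_nonneg_left hgi hM0
    _ = M := mul_one M

lemma gs_norm (β y : ℝ) (hβ : 0 < β) :
    ‖gs β (y * I)‖ = Real.exp (-(y ^ 2 / β ^ 2)) / (β * Real.sqrt Real.pi) := by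
  unfold gs
  rw [norm_div, Complex.norm_exp]
  have h1 : (((y : ℂ) * I / β) ^ 2).re = -(y ^ 2 / β ^ 2) := by
    have : (((y : ℂ) * I / β) ^ 2) = ((-(y ^ 2 / β ^ 2) : ℝ) : ℂ) := by
      push_cast
      rw [div_pow, mul_pow, Complex.I_sq]
      ring
    rw [this, Complex.ofReal_re]
  rw [h1]
  congr 1
  have h2 : (β : ℂ) * (Real.sqrt Real.pi : ℝ) = ((β * Real.sqrt Real.pi : ℝ) : ℂ) := by push_cast; ring
  rw [h2, Complex.norm_real, Real.norm_of_nonneg (by positivity)]

lemma gs_int (β R : ℝ) (hβ : 0 < β) (hR : 0 ≤ R) :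
    ∫ y in (-R)..R, ‖gs β (y * I)‖ ≤ 1 := by
  have h0 : ∀ y : ℝ, ‖gs β (y * I)‖ =
      (β * Real.sqrt Real.pi)⁻¹ * Real.exp (-(1 / β ^ 2) * y ^ 2) := by
    intro y
    rw [gs_norm β y hβ, div_eq_inv_mul]
    congr 2
    ring
  have hb : 0 < 1 / β ^ 2 := by positivity
  simp_rw [h0]
  rw [intervalIntegral.integral_const_mul]
  have h1 : ∫ y in (-R)..R, Real.exp (-(1 / β ^ 2) * y ^ 2) ≤ Real.sqrt (Real.pi / (1 / β ^ 2)) := by
    rw [← integral_gaussian, intervalIntegral.integral_of_le (by linarith)]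
    apply setIntegral_le_integral (integrable_exp_neg_mul_sq hb)
    exact Filter.Eventually.of_forall fun y => (Real.exp_pos _).le
  have h2 : Real.sqrt (Real.pi / (1 / β ^ 2)) = β * Real.sqrt Real.pi := by
    rw [div_div_eq_mul_div, div_one, Real.sqrt_mul Real.pi_pos.le, Real.sqrt_sq hβ.le]
    ring
  rw [h2] at h1
  have h3 : 0 < β * Real.sqrt Real.pi := mul_pos hβ (Real.sqrt_pos.2 Real.pi_pos)
  calc _ ≤ (β * Real.sqrt Real.pi)⁻¹ * (β * Real.sqrt Real.pi) :=
        mul_le_mul_of_nonneg_left h1 (by positivity)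
    _ = 1 := inv_mul_cancel₀ h3.ne'

/-- one term of a block on the critical line -/
lemma term_eq (n : ℕ) (hn : 0 < n) (c : ℂ) (r τ t : ℝ) :
    c * (n : ℂ) ^ (-(wl r τ (1 / 2 + t * I))) =
      (c * (n : ℂ) ^ (-(1 / 2 + τ * I : ℂ))) * cexp (((-(t * (r * Real.log n))) : ℝ) * I) := by
  have hn0 : (n : ℂ) ≠ 0 := by exact_mod_cast hn.ne'
  rw [mul_assoc]
  congr 1
  rw [Complex.cpow_def_of_ne_zero hn0, Complex.cpow_def_of_ne_zero hn0, ← Complex.exp_add]
  congr 1
  have : Complex.log (n : ℂ) = ((Real.log n : ℝ) : ℂ) := (Complex.natCast_log).symm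
  rw [this]
  unfold wl
  push_cast
  ring

lemma norm_coef (n : ℕ) (hn : 0 < n) (c : ℂ) (hc : ‖c‖ ≤ 1) (τ : ℝ) :
    ‖c * (n : ℂ) ^ (-(1 / 2 + τ * I : ℂ))‖ ≤ (n : ℝ) ^ (-(1 / 2) : ℝ) := by
  rw [norm_mul, Complex.norm_natCast_cpow_of_pos hn]
  have h1 : (-(1 / 2 + τ * I : ℂ)).re = -(1 / 2) := by simp
  rw [h1]
  calc ‖c‖ * (n : ℝ) ^ (-(1 / 2) : ℝ) ≤ 1 * (n : ℝ) ^ (-(1 / 2) : ℝ) :=
        mul_le_mul_of_nonneg_right hc (Real.rpow_nonneg (by positivity) _)
    _ = _ := one_mul _

lemma Pj_eq {ι : Type} [Fintype ι] [DecidableEq ι] (f : ι → Fac) (j : ι → ℕ) (t : ℝ) :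
    Pj f j (1 / 2 + t * I) =
      ∑ x ∈ Fintype.piFinset (fun l => Finset.Ico (2 ^ (j l)) (2 ^ (j l + 1))),
        (∏ l, (f l).c (x l) * ((x l : ℕ) : ℂ) ^ (-(1 / 2 + (f l).τ * I : ℂ))) *
          cexp (((-(t * ∑ l, (f l).r * Real.log (x l))) : ℝ) * I) := by
  unfold Pj Fac.B
  rw [Finset.prod_univ_sum]
  refine Finset.sum_congr rfl fun x hx => ?_
  rw [Fintype.mem_piFinset] at hx
  have h1 : ∀ l, (f l).c (x l) * ((x l : ℕ) : ℂ) ^ (-(wl (f l).r (f l).τ (1 / 2 + t * I))) =
      ((f l).c (x l) * ((x l : ℕ) : ℂ) ^ (-(1 / 2 + (f l).τ * I : ℂ))) *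
        cexp (((-(t * ((f l).r * Real.log (x l)))) : ℝ) * I) := by
    intro l
    refine term_eq (x l) ?_ _ _ _ _
    have := (Finset.mem_Ico.1 (hx l)).1
    exact lt_of_lt_of_le (by positivity) this
  rw [Finset.prod_congr rfl fun l _ => h1 l, Finset.prod_mul_distrib, ← Complex.exp_sum]
  congr 2
  rw [← Finset.sum_mul, Finset.mul_sum]
  push_cast
  rw [Finset.sum_neg_distrib]

lemma coef_sum {ι : Type} [Fintype ι] [DecidableEq ι] (f : ι → Fac) (j : ι → ℕ) :
    ∑ x ∈ Fintype.piFinset (fun l => Finset.Ico (2 ^ (j l)) (2 ^ (j l + 1))),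
        ‖∏ l, (f l).c (x l) * ((x l : ℕ) : ℂ) ^ (-(1 / 2 + (f l).τ * I : ℂ))‖ ≤
      ∏ l, (2 : ℝ) ^ ((j l : ℝ) / 2) := by
  have h1 : ∏ l, (2 : ℝ) ^ ((j l : ℝ) / 2) =
      ∑ x ∈ Fintype.piFinset (fun l => Finset.Ico (2 ^ (j l)) (2 ^ (j l + 1))),
        ∏ l, (2 : ℝ) ^ (-((j l : ℝ) / 2)) := by
    have : ∀ l, (2 : ℝ) ^ ((j l : ℝ) / 2) =
        ∑ _n ∈ Finset.Ico (2 ^ (j l)) (2 ^ (j l + 1)), (2 : ℝ) ^ (-((j l : ℝ) / 2)) := by
      intro l
      rw [Finset.sum_const, Nat.card_Ico, nsmul_eq_mul]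
      have h2 : ((2 ^ (j l + 1) - 2 ^ (j l) : ℕ) : ℝ) = (2 : ℝ) ^ ((j l : ℝ)) := by
        have : 2 ^ (j l + 1) - 2 ^ (j l) = 2 ^ (j l) := by
          rw [pow_succ]; omega
        rw [this, Real.rpow_natCast]
        push_cast
        rfl
      rw [h2, ← Real.rpow_add two_pos]
      congr 1
      ring
    rw [Finset.prod_congr rfl fun l _ => this l, Finset.prod_univ_sum]
  rw [h1]
  refine Finset.sum_le_sum fun x hx => ?_
  rw [Fintype.mem_piFinset] at hx
  rw [norm_prod]
  refine Finset.prod_le_prod (fun l _ => norm_nonneg _) fun l _ => ?_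
  have hx1 := (Finset.mem_Ico.1 (hx l)).1
  have hpos : 0 < x l := lt_of_lt_of_le (by positivity) hx1
  refine (norm_coef (x l) hpos _ ((f l).c_le _) _).trans ?_
  have h3 : (2 : ℝ) ^ (-((j l : ℝ) / 2)) = ((2 : ℝ) ^ (j l)) ^ (-(1 / 2) : ℝ) := by
    rw [← Real.rpow_natCast, ← Real.rpow_mul two_pos.le]
    congr 1
    ring
  rw [h3]
  refine Real.rpow_le_rpow_of_nonpos (by positivity) ?_ (by norm_num)
  exact_mod_cast hx1

theorem fu (hVD : T_VD) : T_FU := by
  intro ι _ f Y d t₀ β hd hβ hY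
  classical
  obtain ⟨κ, B, η, C, hκ, hC⟩ := hY.main
  have ht0 := hY.one_le
  -- constants
  have hC0 : 0 ≤ |C| := abs_nonneg _
  refine ⟨8 * Real.sqrt (6 / d) + 5 * |C| + 1, max (max (2 * t₀) 16) (24 * |η| / d), by positivity,
    fun T hT j => ?_⟩
  have hT1 : 2 * t₀ ≤ T := (le_max_left _ _).trans ((le_max_left _ _).trans hT)
  have hT2 : 16 ≤ T := (le_max_right _ _).trans ((le_max_left _ _).trans hT)
  have hT3 : 24 * |η| / d ≤ T := (le_max_right _ _).trans hT
  have hTpos : 0 < T := by linarith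
  have hlogT : Real.log T ≤ T / 2 := by
    have h1 : Real.log T = 2 * Real.log (Real.sqrt T) := by
      rw [Real.log_sqrt hTpos.le]; ring
    have h2 := Real.log_le_sub_one_of_pos (Real.sqrt_pos.2 hTpos)
    have h3 : Real.sqrt T * Real.sqrt T = T := Real.mul_self_sqrt hTpos.le
    have h4 : 4 ≤ Real.sqrt T := by
      rw [show (4 : ℝ) = Real.sqrt 16 by
        rw [show (16 : ℝ) = 4 ^ 2 by norm_num, Real.sqrt_sq (by norm_num)]]
      exact Real.sqrt_le_sqrt hT2
    rw [h1]
    nlinarith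
  have hlog0 : 0 ≤ Real.log T := Real.log_nonneg (by linarith)
  set F : ℝ → ℂ := fun t => Pj f j (1 / 2 + t * I) * Y (1 / 2 + t * I) with hF
  -- the phase
  have hYc : ContinuousOn (fun t : ℝ => Y (1 / 2 + t * I)) (Icc (T / 2) (3 * T)) := by
    intro t ht
    have h1 : ContinuousAt Y (1 / 2 + t * I) := by
      refine (hY.diff _ ?_).continuousAt
      simp
      linarith [ht.1]
    have h2 : ContinuousAt (fun t : ℝ => (1 / 2 + t * I : ℂ)) t := by fun_prop
    exact (ContinuousAt.comp (f := fun t : ℝ => (1 / 2 + t * I : ℂ)) h1 h2).continuousWithinAt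
  have hexp : ∀ Λ : ℝ, Continuous (fun t : ℝ => cexp (((-(t * Λ)) : ℝ) * I)) := by
    intro Λ; fun_prop
  have hone : ∀ Λ x y : ℝ, T / 2 ≤ x → x ≤ y → y ≤ 3 * T →
      ‖∫ t in x..y, cexp (((-(t * Λ)) : ℝ) * I) * Y (1 / 2 + t * I)‖ ≤
        (8 * Real.sqrt (6 / d) + 5 * |C|) * Real.sqrt T := by
    intro Λ x y hx hxy hy
    have hsub : Icc x y ⊆ Icc (T / 2) (3 * T) := Icc_subset_Icc hx hy
    set φ : ℝ → ℝ := fun t => d * t * Real.log t + B * t + η * Real.log t - t * Λ with hφ
    set φ' : ℝ → ℝ := fun t => d * (Real.log t + 1) + B + η / t - Λ with hφ'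
    set φ'' : ℝ → ℝ := fun t => d / t - η / t ^ 2 with hφ''
    have hpos : ∀ t ∈ Icc x y, 0 < t := fun t ht => by linarith [ht.1]
    have hd1 : ∀ t ∈ Icc x y, HasDerivAt φ (φ' t) t := by
      intro t ht
      have ht' := (hpos t ht).ne'
      have a1 := Real.hasDerivAt_log ht'
      have a2 : HasDerivAt (fun t : ℝ => t) 1 t := hasDerivAt_id t
      have a3 := ((((a2.const_mul d).mul a1).add (a2.const_mul B)).add (a1.const_mul η)).sub
        (a2.mul_const Λ)
      refine a3.congr_deriv ?_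
      rw [hφ']
      field_simp
    have hd2 : ∀ t ∈ Icc x y, HasDerivAt φ' (φ'' t) t := by
      intro t ht
      have ht' := (hpos t ht).ne'
      have a1 := Real.hasDerivAt_log ht'
      have a4 : HasDerivAt (fun t : ℝ => η / t) (-(η / t ^ 2)) t := by
        have := (hasDerivAt_inv ht').const_mul η
        refine this.congr_deriv ?_
        ring
      have a3 := ((((a1.add_const 1).const_mul d).add_const B).add a4).sub_const Λ
      refine a3.congr_deriv ?_
      rw [hφ'']
      ring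
    have hc2 : ContinuousOn φ'' (Icc x y) := by
      refine ContinuousOn.sub ?_ ?_
      · exact continuousOn_const.div continuousOn_id fun t ht => (hpos t ht).ne'
      · exact continuousOn_const.div (continuousOn_id.pow 2) fun t ht =>
          pow_ne_zero _ (hpos t ht).ne'
    have hlam : 0 < d / (6 * T) := by positivity
    have hge : ∀ t ∈ Icc x y, d / (6 * T) ≤ φ'' t := by
      intro t ht
      have ht' := hpos t ht
      have htT : T / 2 ≤ t := hx.trans ht.1
      have htT3 : t ≤ 3 * T := ht.2.trans hy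
      have e1 : 24 * |η| ≤ T * d := by
        rwa [div_le_iff₀ hd] at hT3
      have e2 : η / t ^ 2 ≤ |η| / t ^ 2 := by
        gcongr
        exact le_abs_self η
      have e3 : |η| / t ^ 2 ≤ d / (12 * t) := by
        rw [div_le_div_iff₀ (by positivity) (by positivity)]
        have : 12 * |η| ≤ d * t := by nlinarith
        nlinarith
      have e4 : d / t - d / (12 * t) = (11 / 12) * (d / t) := by
        field_simp; ring
      have e5 : d / (3 * T) ≤ d / t := by
        gcongr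
      have e6 : d / (6 * T) = (1 / 2) * (d / (3 * T)) := by
        field_simp; ring
      have e7 : 0 < d / (3 * T) := by positivity
      rw [hφ'']
      simp only
      rw [e6]
      linarith
    have hvd := hVD x y (d / (6 * T)) φ φ' φ'' hxy hlam hd1 hd2 hc2 hge
    have hs : 8 / Real.sqrt (d / (6 * T)) = 8 * Real.sqrt (6 / d) * Real.sqrt T := by
      rw [mul_assoc, ← Real.sqrt_mul (by positivity), div_eq_mul_inv, ← Real.sqrt_inv]
      congr 2
      field_simp
    rw [hs] at hvd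
    have hcφ : ContinuousOn φ (Icc x y) := fun t ht => (hd1 t ht).continuousAt.continuousWithinAt
    have hcE : ContinuousOn (fun t => cexp ((φ t : ℝ) * I)) (Icc x y) := by
      refine Complex.continuous_exp.comp_continuousOn ?_
      exact (Complex.continuous_ofReal.comp_continuousOn hcφ).mul continuousOn_const
    have hcL : ContinuousOn (fun t : ℝ => cexp (((-(t * Λ)) : ℝ) * I) * Y (1 / 2 + t * I)) (Icc x y) :=
      (hexp Λ).continuousOn.mul (hYc.mono hsub)
    have hiL : IntervalIntegrable (fun t : ℝ => cexp (((-(t * Λ)) : ℝ) * I) * Y (1 / 2 + t * I))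
        volume x y := by
      apply ContinuousOn.intervalIntegrable; rwa [uIcc_of_le hxy]
    have hiK : IntervalIntegrable (fun t => κ * cexp ((φ t : ℝ) * I)) volume x y := by
      apply ContinuousOn.intervalIntegrable; rw [uIcc_of_le hxy]
      exact continuousOn_const.mul hcE
    have hsplit : ∫ t in x..y, cexp (((-(t * Λ)) : ℝ) * I) * Y (1 / 2 + t * I) =
        (∫ t in x..y, (cexp (((-(t * Λ)) : ℝ) * I) * Y (1 / 2 + t * I) -
          κ * cexp ((φ t : ℝ) * I))) + κ * ∫ t in x..y, cexp ((φ t : ℝ) * I) := by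
      rw [intervalIntegral.integral_sub hiL hiK, intervalIntegral.integral_const_mul]
      ring
    have herr : ‖∫ t in x..y, (cexp (((-(t * Λ)) : ℝ) * I) * Y (1 / 2 + t * I) -
          κ * cexp ((φ t : ℝ) * I))‖ ≤ 5 * |C| := by
      have h1 := intervalIntegral.norm_integral_le_of_norm_le_const (a := x) (b := y)
        (C := |C| / (T / 2))
        (f := fun t => cexp (((-(t * Λ)) : ℝ) * I) * Y (1 / 2 + t * I) - κ * cexp ((φ t : ℝ) * I))
        (fun t ht => by
          rw [uIoc_of_le hxy] at ht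
          have htt : T / 2 ≤ t := hx.trans ht.1.le
          have ht1 : t₀ ≤ t := by linarith
          have htp : 0 < t := by linarith
          have e1 : cexp (((-(t * Λ)) : ℝ) * I) * Y (1 / 2 + t * I) - κ * cexp ((φ t : ℝ) * I) =
              cexp (((-(t * Λ)) : ℝ) * I) * (Y (1 / 2 + t * I) -
                κ * cexp ((d * t * Real.log t + B * t + η * Real.log t : ℝ) * I)) := by
            rw [mul_sub]
            congr 1
            have e2 : cexp ((φ t : ℝ) * I) = cexp (((-(t * Λ)) : ℝ) * I) *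
                cexp ((d * t * Real.log t + B * t + η * Real.log t : ℝ) * I) := by
              rw [← Complex.exp_add]
              congr 1
              rw [hφ]
              push_cast
              ring
            rw [e2]; ring
          rw [e1, norm_mul, Complex.norm_exp_ofReal_mul_I, one_mul]
          refine (hC t ht1).trans ?_
          calc C / t ≤ |C| / t := by gcongr; exact le_abs_self C
            _ ≤ |C| / (T / 2) := by gcongr)
      refine h1.trans ?_
      rw [abs_of_nonneg (show 0 ≤ y - x by linarith), div_mul_eq_mul_div,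
        div_le_iff₀ (by positivity)]
      have : y - x ≤ 5 / 2 * T := by linarith
      nlinarith
    rw [hsplit]
    refine (norm_add_le _ _).trans ?_
    rw [norm_mul, hκ, one_mul]
    have h1 : 1 ≤ Real.sqrt T := by
      rw [show (1 : ℝ) = Real.sqrt 1 by rw [Real.sqrt_one]]
      exact Real.sqrt_le_sqrt (by linarith)
    nlinarith
  set W : ℝ := (8 * Real.sqrt (6 / d) + 5 * |C|) * Real.sqrt T with hW
  have hW0 : 0 ≤ W := by positivity
  set Q : ℝ := ∏ l, (2 : ℝ) ^ ((j l : ℝ) / 2) with hQ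
  have hQ0 : 0 < Q := Finset.prod_pos fun l _ => Real.rpow_pos_of_pos two_pos _
  have hFc : ContinuousOn F (Icc (T / 2) (3 * T)) := by
    refine ContinuousOn.mul ?_ hYc
    refine Continuous.continuousOn ?_
    simp_rw [Pj_eq]
    fun_prop
  have hM : ∀ x y, T / 2 ≤ x → x ≤ y → y ≤ 3 * T → ‖∫ t in x..y, F t‖ ≤ Q * W := by
    intro x y hx hxy hy
    have hsub : Icc x y ⊆ Icc (T / 2) (3 * T) := Icc_subset_Icc hx hy
    have e1 : ∫ t in x..y, F t =
        ∑ z ∈ Fintype.piFinset (fun l => Finset.Ico (2 ^ (j l)) (2 ^ (j l + 1))),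
          (∏ l, (f l).c (z l) * ((z l : ℕ) : ℂ) ^ (-(1 / 2 + (f l).τ * I : ℂ))) *
          ∫ t in x..y, cexp (((-(t * ∑ l, (f l).r * Real.log (z l))) : ℝ) * I) *
            Y (1 / 2 + t * I) := by
      rw [hF]
      simp_rw [Pj_eq, Finset.sum_mul, mul_assoc]
      rw [intervalIntegral.integral_finsetSum]
      · refine Finset.sum_congr rfl fun z _ => ?_
        rw [intervalIntegral.integral_const_mul]
      · intro z _
        apply ContinuousOn.intervalIntegrable
        rw [uIcc_of_le hxy]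
        refine continuousOn_const.mul ?_
        exact (hexp _).continuousOn.mul (hYc.mono hsub)
    rw [e1]
    refine (norm_sum_le _ _).trans ?_
    calc _ ≤ ∑ z ∈ Fintype.piFinset (fun l => Finset.Ico (2 ^ (j l)) (2 ^ (j l + 1))),
          ‖∏ l, (f l).c (z l) * ((z l : ℕ) : ℂ) ^ (-(1 / 2 + (f l).τ * I : ℂ))‖ * W := by
          refine Finset.sum_le_sum fun z _ => ?_
          rw [norm_mul]
          exact mul_le_mul_of_nonneg_left (hone _ x y hx hxy hy) (norm_nonneg _)
      _ ≤ Q * W := by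
          rw [← Finset.sum_mul]
          exact mul_le_mul_of_nonneg_right (coef_sum f j) hW0
  have hgc : Continuous (fun y : ℝ => gs β (y * I)) := by
    unfold gs
    fun_prop
  have hfin := swap_bound F (fun y => gs β (y * I)) (T / 2) (3 * T) T (2 * T) (Real.log T) (Q * W)
    (by linarith) hlog0 (by linarith) (by linarith) hFc hgc hM (gs_int β _ hβ hlog0)
    (by positivity)
  have hKJ : ∀ u : ℝ, KJ f Y β (Real.log T) j u =
      ∫ y in (-Real.log T)..(Real.log T), F (u + y) * gs β (y * I) := by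
    intro u
    unfold KJ
    rw [hF]
  simp_rw [hKJ]
  refine hfin.trans ?_
  rw [hW]
  have : 0 ≤ Real.sqrt T := Real.sqrt_nonneg _
  nlinarith [mul_nonneg this hQ0.le]

end Pool.Agent.H92.DL
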