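import Pool.Agent.H25.DL.Targets

set_option autoImplicit false

open Complex MeasureTheory Set Pool.Agent.H25.DL

namespace Pool.Agent.H92.DL

theorem cn : T_CN := by
  intro ι _ f μ D hD hμ hr
  classical
  have hl2 : 0 < Real.log 2 := Real.log_pos one_lt_two
  set a : ℝ := D / (μ * Real.log 2) with ha
  have ha0 : 0 < a := div_pos hD (mul_pos hμ hl2)
  set L : ℕ := Fintype.card ι with hL
  refine ⟨max ((a + 1) ^ L) L + 1, by positivity, fun T hT => ?_⟩
  have hT0 : 0 < T := by linarith
  have hlog : 1 ≤ Real.log T := by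
    rw [Real.le_log_iff_exp_le hT0]
    have := Real.exp_one_lt_d9
    linarith
  have hlog0 : 0 < Real.log T := by linarith
  constructor
  · have h1 : (mains f μ D T).card ≤ (⌊D * Real.log T / (μ * Real.log 2)⌋₊ + 1) ^ L := by
      unfold mains
      refine (Finset.card_filter_le _ _).trans ?_
      rw [Fintype.card_piFinset]
      simp [hL]
    have h2 : ((⌊D * Real.log T / (μ * Real.log 2)⌋₊ : ℝ) + 1) ≤ (a + 1) * Real.log T := by
      have h3 : (⌊D * Real.log T / (μ * Real.log 2)⌋₊ : ℝ) ≤ D * Real.log T / (μ * Real.log 2) :=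
        Nat.floor_le (by positivity)
      have h4 : D * Real.log T / (μ * Real.log 2) = a * Real.log T := by
        rw [ha]; ring
      rw [h4] at h3 ⊢
      nlinarith
    have h5 : ((mains f μ D T).card : ℝ) ≤ ((a + 1) * Real.log T) ^ L := by
      have h6 : ((mains f μ D T).card : ℝ) ≤
          ((⌊D * Real.log T / (μ * Real.log 2)⌋₊ : ℝ) + 1) ^ L := by
        exact_mod_cast h1
      exact h6.trans (pow_le_pow_left₀ (by positivity) h2 _)
    refine h5.trans ?_
    rw [mul_pow]
    refine mul_le_mul ?_ ?_ (by positivity) (by positivity)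
    · have := le_max_left ((a + 1) ^ L) (L : ℝ)
      linarith
    · rw [← Real.rpow_natCast]
      refine Real.rpow_le_rpow_of_exponent_le hlog ?_
      have := le_max_right ((a + 1) ^ L) (L : ℝ)
      linarith
  · intro j hj
    unfold mains at hj
    have hj2 := (Finset.mem_filter.1 hj).2
    have h1 : ∑ l, (j l : ℝ) * μ * Real.log 2 ≤ D * Real.log T := by
      refine le_trans (Finset.sum_le_sum fun l _ => ?_) hj2
      have h3 := hr l
      have h4 : (0 : ℝ) ≤ (j l : ℝ) := by positivity
      exact mul_le_mul_of_nonneg_right (mul_le_mul_of_nonneg_left h3 h4) hl2.le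
    have h2 : ∏ l, (2 : ℝ) ^ ((j l : ℝ) / 2) = Real.exp (∑ l, Real.log 2 * ((j l : ℝ) / 2)) := by
      rw [Real.exp_sum]
      refine Finset.prod_congr rfl fun l _ => ?_
      rw [Real.rpow_def_of_pos two_pos]
    rw [h2, Real.rpow_def_of_pos hT0]
    apply Real.exp_le_exp.2
    have h3 : ∑ l, (j l : ℝ) * μ * Real.log 2 = (2 * μ) * ∑ l, Real.log 2 * ((j l : ℝ) / 2) := by
      rw [Finset.mul_sum]
      refine Finset.sum_congr rfl fun l _ => ?_
      ring
    rw [h3] at h1
    have h4 : Real.log T * (D / (2 * μ)) = D * Real.log T / (2 * μ) := by ring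
    rw [h4, le_div_iff₀ (by positivity)]
    linarith

end Pool.Agent.H92.DL
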