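import Pool.Agent.H25.DL.Targets

set_option autoImplicit false

open Complex MeasureTheory Set Pool.Agent.H25.DL

namespace Pool.Agent.H92.DL

/-- first derivative test -/
lemma fd (c e δ : ℝ) (φ φ' φ'' : ℝ → ℝ) (hce : c ≤ e) (hδ : 0 < δ)
    (h1 : ∀ x ∈ Icc c e, HasDerivAt φ (φ' x) x) (h2 : ∀ x ∈ Icc c e, HasDerivAt φ' (φ'' x) x)
    (hc : ContinuousOn φ'' (Icc c e)) (hn : ∀ x ∈ Icc c e, 0 ≤ φ'' x)
    (σ : ℝ) (hσ : σ = 1 ∨ σ = -1) (hs : ∀ x ∈ Icc c e, δ ≤ σ * φ' x) :
    ‖∫ x in c..e, cexp ((φ x : ℝ) * I)‖ ≤ 2 / δ := by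
  have hne : ∀ x ∈ Icc c e, φ' x ≠ 0 := fun x hx h => by
    have := hs x hx
    rw [h, mul_zero] at this
    linarith
  have hcφ : ContinuousOn φ (Icc c e) := fun x hx => (h1 x hx).continuousAt.continuousWithinAt
  have hcφ' : ContinuousOn φ' (Icc c e) := fun x hx => (h2 x hx).continuousAt.continuousWithinAt
  have hcE : ContinuousOn (fun x => cexp ((φ x : ℝ) * I)) (Icc c e) := by
    refine Complex.continuous_exp.comp_continuousOn ?_
    exact (Complex.continuous_ofReal.comp_continuousOn hcφ).mul continuousOn_const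
  set g : ℝ → ℂ := fun x => cexp ((φ x : ℝ) * I) * ((φ'' x / (φ' x) ^ 2 : ℝ) : ℂ) * (-I) with hg
  have hcg : ContinuousOn g (Icc c e) := by
    refine (hcE.mul ?_).mul continuousOn_const
    refine Complex.continuous_ofReal.comp_continuousOn ?_
    exact hc.div (hcφ'.pow 2) fun x hx => pow_ne_zero _ (hne x hx)
  set G : ℝ → ℂ := fun x => cexp ((φ x : ℝ) * I) * ((1 / φ' x : ℝ) : ℂ) * (-I) with hG
  have hder : ∀ x ∈ Icc c e, HasDerivAt G (cexp ((φ x : ℝ) * I) - g x) x := by
    intro x hx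
    have a1 : HasDerivAt (fun x => cexp ((φ x : ℝ) * I)) (cexp ((φ x : ℝ) * I) * ((φ' x : ℝ) * I)) x :=
      ((h1 x hx).ofReal_comp.mul_const I).cexp
    have a2 : HasDerivAt (fun x => (1 / φ' x : ℝ)) (-(φ'' x) / (φ' x) ^ 2) x := by
      have h3 := (h2 x hx).fun_inv (hne x hx)
      simpa only [one_div] using h3
    have a3 := (a1.mul a2.ofReal_comp).mul_const (-I)
    refine a3.congr_deriv ?_
    rw [hg]
    have hne' : ((φ' x : ℝ) : ℂ) ≠ 0 := by exact_mod_cast hne x hx
    push_cast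
    field_simp
    ring_nf
    simp only [Complex.I_sq]
    ring
  have hiE : IntervalIntegrable (fun x => cexp ((φ x : ℝ) * I)) volume c e := by
    apply ContinuousOn.intervalIntegrable
    rwa [uIcc_of_le hce]
  have hig : IntervalIntegrable g volume c e := by
    apply ContinuousOn.intervalIntegrable
    rwa [uIcc_of_le hce]
  have hF : ∫ x in c..e, (cexp ((φ x : ℝ) * I) - g x) = G e - G c := by
    apply intervalIntegral.integral_eq_sub_of_hasDerivAt
    · intro x hx
      rw [uIcc_of_le hce] at hx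
      exact hder x hx
    · exact hiE.sub hig
  rw [intervalIntegral.integral_sub hiE hig] at hF
  have hcr : ContinuousOn (fun x => φ'' x / (φ' x) ^ 2) (Icc c e) :=
    hc.div (hcφ'.pow 2) fun x hx => pow_ne_zero _ (hne x hx)
  have hir : IntervalIntegrable (fun x => φ'' x / (φ' x) ^ 2) volume c e := by
    apply ContinuousOn.intervalIntegrable
    rwa [uIcc_of_le hce]
  have hR : ∫ x in c..e, φ'' x / (φ' x) ^ 2 = -(1 / φ' e) - (-(1 / φ' c)) := by
    apply intervalIntegral.integral_eq_sub_of_hasDerivAt (f := fun x => -(1 / φ' x))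
    · intro x hx
      rw [uIcc_of_le hce] at hx
      have a2 : HasDerivAt (fun x => (1 / φ' x : ℝ)) (-(φ'' x) / (φ' x) ^ 2) x := by
        have h3 := (h2 x hx).fun_inv (hne x hx)
        simpa only [one_div] using h3
      refine a2.neg.congr_deriv ?_
      ring
    · exact hir
  have hb : ‖∫ x in c..e, g x‖ ≤ 1 / φ' c - 1 / φ' e := by
    have : ‖∫ x in c..e, g x‖ ≤ ∫ x in c..e, φ'' x / (φ' x) ^ 2 := by
      refine intervalIntegral.norm_integral_le_of_norm_le hce ?_ hir
      refine Filter.Eventually.of_forall fun x hx => ?_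
      have hx' : x ∈ Icc c e := Ioc_subset_Icc_self hx
      rw [hg]
      simp only [norm_mul, norm_neg, Complex.norm_I, mul_one, Complex.norm_exp_ofReal_mul_I, one_mul,
        Complex.norm_real]
      rw [Real.norm_of_nonneg]
      exact div_nonneg (hn x hx') (sq_nonneg _)
    rw [hR] at this
    linarith
  have hGn : ∀ x, ‖G x‖ = 1 / |φ' x| := by
    intro x
    rw [hG]
    simp only [norm_mul, norm_neg, Complex.norm_I, mul_one, Complex.norm_exp_ofReal_mul_I, one_mul,
      Complex.norm_real]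
    rw [Real.norm_eq_abs, abs_div, abs_one]
  have hmain : ∫ x in c..e, cexp ((φ x : ℝ) * I) = G e - G c + ∫ x in c..e, g x := by
    rw [← hF]; ring
  have hcm : c ∈ Icc c e := left_mem_Icc.2 hce
  have hem : e ∈ Icc c e := right_mem_Icc.2 hce
  have hle : ‖∫ x in c..e, cexp ((φ x : ℝ) * I)‖ ≤
      1 / |φ' e| + 1 / |φ' c| + (1 / φ' c - 1 / φ' e) := by
    rw [hmain]
    refine (norm_add_le _ _).trans (add_le_add ((norm_sub_le _ _).trans ?_) hb)
    rw [hGn, hGn]
  refine hle.trans ?_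
  have hsc := hs c hcm
  have hse := hs e hem
  rcases hσ with rfl | rfl
  · rw [one_mul] at hsc hse
    rw [abs_of_pos (by linarith), abs_of_pos (by linarith)]
    have : 1 / φ' c ≤ 1 / δ := one_div_le_one_div_of_le hδ hsc
    have h3 : 2 / δ = 1 / δ + 1 / δ := by ring
    rw [h3]
    linarith
  · have hc' : φ' c < 0 := by linarith
    have he' : φ' e < 0 := by linarith
    rw [abs_of_neg hc', abs_of_neg he']
    have : 1 / -φ' e ≤ 1 / δ := one_div_le_one_div_of_le hδ (by linarith)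
    have h3 : 2 / δ = 1 / δ + 1 / δ := by ring
    have h4 : 1 / -φ' c = -(1 / φ' c) := by ring
    have h5 : 1 / -φ' e = -(1 / φ' e) := by ring
    rw [h3]
    rw [h4]
    rw [h5] at this ⊢
    linarith

lemma split (a b c : ℝ) (f : ℝ → ℝ) (hab : a ≤ b) (hf : ContinuousOn f (Icc a b)) :
    ∃ x ∈ Icc a b, (x = a ∨ f x ≤ c) ∧ (x = b ∨ c ≤ f x) := by
  by_cases h1 : c ≤ f a
  · exact ⟨a, left_mem_Icc.2 hab, Or.inl rfl, Or.inr h1⟩
  · by_cases h2 : f b ≤ c
    · exact ⟨b, right_mem_Icc.2 hab, Or.inr h2, Or.inl rfl⟩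
    · push Not at h1 h2
      obtain ⟨x, hx, hx2⟩ := intermediate_value_Icc hab hf ⟨h1.le, h2.le⟩
      exact ⟨x, hx, Or.inr hx2.le, Or.inr hx2.ge⟩

theorem vd : T_VD := by
  intro a b lam φ φ' φ'' hab hlam h1 h2 hc hl
  have hcφ : ContinuousOn φ (Icc a b) := fun x hx => (h1 x hx).continuousAt.continuousWithinAt
  have hcφ' : ContinuousOn φ' (Icc a b) := fun x hx => (h2 x hx).continuousAt.continuousWithinAt
  have hmv : ∀ x ∈ Icc a b, ∀ y ∈ Icc a b, x ≤ y → lam * (y - x) ≤ φ' y - φ' x := by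
    intro x hx y hy hxy
    refine Convex.mul_sub_le_image_sub_of_le_deriv (convex_Icc a b) hcφ' ?_ ?_ x hx y hy hxy
    · intro z hz
      exact (h2 z (interior_subset hz)).differentiableAt.differentiableWithinAt
    · intro z hz
      rw [(h2 z (interior_subset hz)).deriv]
      exact hl z (interior_subset hz)
  have hmono : ∀ x ∈ Icc a b, ∀ y ∈ Icc a b, x ≤ y → φ' x ≤ φ' y := by
    intro x hx y hy hxy
    have := hmv x hx y hy hxy
    have h0 : 0 ≤ lam * (y - x) := mul_nonneg hlam.le (by linarith)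
    linarith
  set δ : ℝ := Real.sqrt lam with hδdef
  have hδ : 0 < δ := Real.sqrt_pos.2 hlam
  have hδ2 : δ * δ = lam := Real.mul_self_sqrt hlam.le
  obtain ⟨x1, hx1, hx1a, hx1b⟩ := split a b (-δ) φ' hab hcφ'
  have hsub1 : Icc x1 b ⊆ Icc a b := Icc_subset_Icc hx1.1 le_rfl
  obtain ⟨x2, hx2, hx2a, hx2b⟩ := split x1 b δ φ' hx1.2 (hcφ'.mono hsub1)
  have hx2' : x2 ∈ Icc a b := hsub1 hx2
  have hint : ∀ c ∈ Icc a b, ∀ e ∈ Icc a b,
      IntervalIntegrable (fun x => cexp ((φ x : ℝ) * I)) volume c e := by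
    intro c hc' e he'
    apply ContinuousOn.intervalIntegrable
    refine ContinuousOn.mono ?_ (uIcc_subset_Icc hc' he')
    refine Complex.continuous_exp.comp_continuousOn ?_
    exact (Complex.continuous_ofReal.comp_continuousOn hcφ).mul continuousOn_const
  have ham : a ∈ Icc a b := left_mem_Icc.2 hab
  have hbm : b ∈ Icc a b := right_mem_Icc.2 hab
  have hsplit : ∫ x in a..b, cexp ((φ x : ℝ) * I) =
      (∫ x in a..x1, cexp ((φ x : ℝ) * I)) + (∫ x in x1..x2, cexp ((φ x : ℝ) * I)) +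
        ∫ x in x2..b, cexp ((φ x : ℝ) * I) := by
    rw [intervalIntegral.integral_add_adjacent_intervals (hint a ham x1 hx1) (hint x1 hx1 x2 hx2'),
      intervalIntegral.integral_add_adjacent_intervals (hint a ham x2 hx2') (hint x2 hx2' b hbm)]
  have hI1 : ‖∫ x in a..x1, cexp ((φ x : ℝ) * I)‖ ≤ 2 / δ := by
    rcases hx1a with h | h
    · rw [h, intervalIntegral.integral_same, norm_zero]; positivity
    · have hs : Icc a x1 ⊆ Icc a b := Icc_subset_Icc le_rfl hx1.2
      refine fd a x1 δ φ φ' φ'' hx1.1 hδ (fun x hx => h1 x (hs hx)) (fun x hx => h2 x (hs hx))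
        (hc.mono hs) (fun x hx => hlam.le.trans (hl x (hs hx))) (-1) (Or.inr rfl) ?_
      intro x hx
      have := hmono x (hs hx) x1 hx1 hx.2
      linarith
  have hI3 : ‖∫ x in x2..b, cexp ((φ x : ℝ) * I)‖ ≤ 2 / δ := by
    rcases hx2b with h | h
    · rw [h, intervalIntegral.integral_same, norm_zero]; positivity
    · have hs : Icc x2 b ⊆ Icc a b := Icc_subset_Icc hx2'.1 le_rfl
      refine fd x2 b δ φ φ' φ'' hx2'.2 hδ (fun x hx => h1 x (hs hx)) (fun x hx => h2 x (hs hx))
        (hc.mono hs) (fun x hx => hlam.le.trans (hl x (hs hx))) 1 (Or.inl rfl) ?_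
      intro x hx
      have := hmono x2 hx2' x (hs hx) hx.1
      linarith
  have hI2 : ‖∫ x in x1..x2, cexp ((φ x : ℝ) * I)‖ ≤ 2 / δ := by
    have hlen : x2 - x1 ≤ 2 / δ := by
      rcases hx2a with h | h
      · rw [h, sub_self]; positivity
      · rcases hx1b with h' | h'
        · have : x2 = b := le_antisymm hx2.2 (by rw [← h']; exact hx2.1)
          rw [this, ← h', sub_self]; positivity
        · have := hmv x1 hx1 x2 hx2' hx2.1
          rw [le_div_iff₀ hδ]
          have h3 : δ * ((x2 - x1) * δ) ≤ δ * 2 := by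
            have : δ * ((x2 - x1) * δ) = lam * (x2 - x1) := by rw [← hδ2]; ring
            linarith
          exact le_of_mul_le_mul_left h3 hδ
    have := intervalIntegral.norm_integral_le_of_norm_le_const (a := x1) (b := x2) (C := 1)
      (f := fun x => cexp ((φ x : ℝ) * I)) (fun x _ => by
        rw [Complex.norm_exp_ofReal_mul_I])
    rw [abs_of_nonneg (by linarith [hx2.1]), one_mul] at this
    exact this.trans hlen
  rw [hsplit]
  have h8 : 8 / δ = 2 / δ + 2 / δ + 2 / δ + 2 / δ := by ring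
  rw [h8]
  have hpos : 0 ≤ 2 / δ := by positivity
  calc _ ≤ _ := norm_add₃_le
    _ ≤ _ := by linarith

end Pool.Agent.H92.DL
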