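import Pool.Agent.H25.DL.Targets

set_option autoImplicit false

open Complex MeasureTheory Set Pool.Agent.H25.DL

namespace Pool.Agent.H92.DL

lemma gammaC_ne {s : ℂ} (hs : 0 < s.im) : Gammaℂ s ≠ 0 := by
  unfold Gammaℂ
  refine mul_ne_zero (mul_ne_zero two_ne_zero ?_) ?_
  · rw [Complex.cpow_ne_zero_iff]
    left
    refine mul_ne_zero two_ne_zero ?_
    exact_mod_cast Real.pi_ne_zero
  · refine Complex.Gamma_ne_zero fun m hm => ?_
    rw [hm] at hs
    simp at hs

lemma gammaC_diff {s : ℂ} (hs : 0 < s.im) : DifferentiableAt ℂ Gammaℂ s := by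
  unfold Gammaℂ
  refine DifferentiableAt.mul (DifferentiableAt.mul (differentiableAt_const _) ?_) ?_
  · refine DifferentiableAt.const_cpow differentiableAt_id.neg (Or.inl ?_)
    refine mul_ne_zero two_ne_zero ?_
    exact_mod_cast Real.pi_ne_zero
  · refine Complex.differentiableAt_Gamma _ fun m hm => ?_
    rw [hm] at hs
    simp at hs

lemma cos_ne {s : ℂ} (κ : ℝ) (hs : 0 < s.im) :
    Complex.cos (Real.pi * (s - κ) / 2) ≠ 0 := by
  intro h
  rw [Complex.cos_eq_zero_iff] at h
  obtain ⟨k, hk⟩ := h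
  have h1 := congrArg Complex.im hk
  have h2 : ((Real.pi : ℂ) * (s - κ) / 2).im = Real.pi * s.im / 2 := by
    have : ((Real.pi : ℂ) * (s - κ) / 2) = ((Real.pi / 2 : ℝ) : ℂ) * (s - κ) := by
      push_cast; ring
    rw [this, Complex.im_ofReal_mul]
    simp only [Complex.sub_im, Complex.ofReal_im]
    ring
  have h3 : ((2 * (k : ℂ) + 1) * Real.pi / 2).im = 0 := by
    have : ((2 * (k : ℂ) + 1) * Real.pi / 2) = (((2 * (k : ℝ) + 1) * Real.pi / 2 : ℝ) : ℂ) := by
      push_cast; ring
    rw [this, Complex.ofReal_im]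
  rw [h2, h3] at h1
  have := mul_pos Real.pi_pos hs
  linarith

theorem yn : T_YN := by
  intro L s hs
  constructor
  · unfold LF.y
    refine DifferentiableAt.mul (DifferentiableAt.mul (differentiableAt_const _) ?_) ?_
    · fun_prop
    · refine DifferentiableAt.fun_finsetProd fun j _ => ?_
      refine (gammaC_diff hs).mul ?_
      fun_prop
  · unfold LF.y
    refine mul_ne_zero (mul_ne_zero ?_ (Complex.exp_ne_zero _)) ?_
    · intro h
      have := L.norm_ε
      rw [h] at this
      simp at this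
    · rw [Finset.prod_ne_zero_iff]
      intro j _
      exact mul_ne_zero (gammaC_ne hs) (cos_ne _ hs)

end Pool.Agent.H92.DL
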